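import Pool.Agent.Run7.h338.FF.Iface

set_option autoImplicit false

open Polynomial IntermediateField

namespace Run7.h715.FF

/-- A finite field has extensions of every degree. -/
theorem ext_exists (F : Type) [Field F] [Fintype F] (d : ℕ) (hd : 0 < d) :
    ∃ (L : Type) (_ : Field L) (_ : Fintype L) (_ : Algebra F L),
      Module.finrank F L = d ∧ Fintype.card L = Fintype.card F ^ d := by
  classical
  obtain ⟨p, hp⟩ := CharP.exists F
  have hpp : p.Prime := by
    rcases CharP.char_is_prime_or_zero F p with h | h
    · exact h
    · subst h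
      exfalso
      have : CharZero F := CharP.charP_to_charZero F
      exact not_finite F
  have : Fact p.Prime := ⟨hpp⟩
  have : NeZero d := ⟨hd.ne'⟩
  have hf : Fintype (FiniteField.Extension F p d) := Fintype.ofFinite _
  refine ⟨FiniteField.Extension F p d, inferInstance, hf, inferInstance,
    FiniteField.finrank_extension F p d, ?_⟩
  rw [← Nat.card_eq_fintype_card, FiniteField.natCard_extension, Nat.card_eq_fintype_card]

theorem two_geom_le (p : ℕ) (hp : 3 ≤ p) (d : ℕ) :
    2 * (∑ e ∈ Finset.range d, p ^ e) ≤ p ^ d := by
  induction d with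
  | zero => simp
  | succ d ih =>
    rw [Finset.sum_range_succ, mul_add, pow_succ]
    have : 0 < p ^ d := by positivity
    nlinarith

/-- Elements whose minimal polynomial has degree `e` satisfy `x ^ (q ^ e) = x`. -/
theorem pow_of_natDegree (F : Type) [Field F] [Fintype F] (L : Type) [Field L] [Fintype L]
    [Algebra F L] (x : L) :
    x ^ (Fintype.card F ^ (minpoly F x).natDegree) = x := by
  classical
  have hfin : Module.Finite F L := Module.Finite.of_finite
  have hint : IsIntegral F x := Algebra.IsIntegral.isIntegral x
  have : Fintype F⟮x⟯ := Fintype.ofFinite _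
  have hcard : Fintype.card F⟮x⟯ = Fintype.card F ^ (minpoly F x).natDegree := by
    rw [Module.card_eq_pow_finrank (K := F), IntermediateField.adjoin.finrank hint]
  have h := FiniteField.pow_card (IntermediateField.AdjoinSimple.gen F x)
  rw [hcard] at h
  have h2 := congrArg (algebraMap F⟮x⟯ L) h
  rw [map_pow, IntermediateField.AdjoinSimple.algebraMap_gen] at h2
  exact h2

theorem t_IRRED : Pool.Agent.Run7.h338.FF.S_IRRED := by
  intro F _ _ d hp3 hd
  classical
  obtain ⟨L, _, _, _, hfin, hcard⟩ := ext_exists F d hd
  have hmf : Module.Finite F L := Module.Finite.of_finite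
  set p := Fintype.card F with hpdef
  have hp1 : 1 < p := by omega
  let f : L → F[X] := fun x => minpoly F x
  have hint : ∀ x : L, IsIntegral F x := fun x => Algebra.IsIntegral.isIntegral x
  let T : Finset L := Finset.univ.filter (fun x => (f x).natDegree = d)
  let B : ℕ → Finset L := fun e => Finset.univ.filter (fun x => x ^ (p ^ e) = x)
  have hB : ∀ e, 0 < e → (B e).card ≤ p ^ e := by
    intro e he
    have h1 : 1 < p ^ e := Nat.one_lt_pow he.ne' hp1
    have hdeg : (X ^ p ^ e - X : L[X]).natDegree = p ^ e :=
      FiniteField.X_pow_card_sub_X_natDegree_eq L h1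
    have hne : (X ^ p ^ e - X : L[X]) ≠ 0 :=
      FiniteField.X_pow_card_sub_X_ne_zero L h1
    have hsub : B e ⊆ (X ^ p ^ e - X : L[X]).roots.toFinset := by
      intro x hx
      rw [Finset.mem_filter] at hx
      rw [Multiset.mem_toFinset, mem_roots hne]
      simp [IsRoot, hx.2]
    calc (B e).card ≤ ((X ^ p ^ e - X : L[X]).roots.toFinset).card := Finset.card_le_card hsub
      _ ≤ (X ^ p ^ e - X : L[X]).roots.card := Multiset.toFinset_card_le _
      _ ≤ (X ^ p ^ e - X : L[X]).natDegree := card_roots' _
      _ = p ^ e := hdeg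
  have hcover : (Finset.univ : Finset L) ⊆
      T ∪ (Finset.Ico 1 d).biUnion B := by
    intro x _
    rw [Finset.mem_union, Finset.mem_biUnion]
    have h1 : (f x).natDegree ≤ d := by
      rw [← hfin]
      exact minpoly.natDegree_le x
    have h2 : 0 < (f x).natDegree := minpoly.natDegree_pos (hint x)
    rcases h1.lt_or_eq with h | h
    · right
      refine ⟨(f x).natDegree, Finset.mem_Ico.mpr ⟨h2, h⟩, ?_⟩
      rw [Finset.mem_filter]
      exact ⟨Finset.mem_univ _, pow_of_natDegree F L x⟩
    · left
      rw [Finset.mem_filter]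
      exact ⟨Finset.mem_univ _, h⟩
  have hTcard : p ^ d ≤ 2 * T.card := by
    have h1 : p ^ d ≤ T.card + ∑ e ∈ Finset.Ico 1 d, p ^ e := by
      calc p ^ d = (Finset.univ : Finset L).card := by rw [Finset.card_univ, hcard]
        _ ≤ (T ∪ (Finset.Ico 1 d).biUnion B).card := Finset.card_le_card hcover
        _ ≤ T.card + ((Finset.Ico 1 d).biUnion B).card := Finset.card_union_le _ _
        _ ≤ T.card + ∑ e ∈ Finset.Ico 1 d, (B e).card :=
          Nat.add_le_add_left Finset.card_biUnion_le _
        _ ≤ T.card + ∑ e ∈ Finset.Ico 1 d, p ^ e := by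
          apply Nat.add_le_add_left
          apply Finset.sum_le_sum
          intro e he
          exact hB e (Finset.mem_Ico.mp he).1
    have h2 : ∑ e ∈ Finset.Ico 1 d, p ^ e ≤ ∑ e ∈ Finset.range d, p ^ e := by
      apply Finset.sum_le_sum_of_subset
      intro e he
      rw [Finset.mem_range]
      exact (Finset.mem_Ico.mp he).2
    have h3 := two_geom_le p hp3 d
    omega
  refine ⟨T.image f, ?_, ?_⟩
  · intro P hP
    rw [Finset.mem_image] at hP
    obtain ⟨x, hx, rfl⟩ := hP
    rw [Finset.mem_filter] at hx
    exact ⟨minpoly.monic (hint x), minpoly.irreducible (hint x), hx.2⟩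
  · have hfib : ∀ P ∈ T.image f, (T.filter (fun x => f x = P)).card ≤ d := by
      intro P hP
      rw [Finset.mem_image] at hP
      obtain ⟨y, hy, rfl⟩ := hP
      rw [Finset.mem_filter] at hy
      have hmon : (f y).Monic := minpoly.monic (hint y)
      have hne : (f y).map (algebraMap F L) ≠ 0 := (hmon.map _).ne_zero
      have hsub : T.filter (fun x => f x = f y) ⊆
          ((f y).map (algebraMap F L)).roots.toFinset := by
        intro x hx
        rw [Finset.mem_filter] at hx
        rw [Multiset.mem_toFinset, mem_roots hne, IsRoot, eval_map_algebraMap, ← hx.2]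
        exact minpoly.aeval _ _
      calc (T.filter (fun x => f x = f y)).card
          ≤ (((f y).map (algebraMap F L)).roots.toFinset).card := Finset.card_le_card hsub
        _ ≤ ((f y).map (algebraMap F L)).roots.card := Multiset.toFinset_card_le _
        _ ≤ ((f y).map (algebraMap F L)).natDegree := card_roots' _
        _ ≤ (f y).natDegree := natDegree_map_le
        _ = d := hy.2
    have h1 := Finset.card_le_mul_card_image T d hfib
    calc p ^ d ≤ 2 * T.card := hTcard
      _ ≤ 2 * (d * (T.image f).card) := Nat.mul_le_mul_left _ h1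
      _ = 2 * d * (T.image f).card := by ring

end Run7.h715.FF
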