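import Pool.Agent.Run7.h338.FF.Iface

set_option autoImplicit false

open Polynomial

namespace Run7.h715.FF

theorem set_degreeLT (F : Type) [Field F] (k : ℕ) :
    {g : F[X] | g.degree < (k : ℕ)} = (degreeLT F k : Set F[X]) := by
  ext g
  simp [mem_degreeLT]

theorem finite_degreeLT (F : Type) [Field F] [Fintype F] (k : ℕ) :
    {g : F[X] | g.degree < (k : ℕ)}.Finite := by
  rw [set_degreeLT]
  have : Finite (degreeLT F k) := Finite.of_equiv _ (degreeLTEquiv F k).symm.toEquiv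
  exact Set.toFinite _

theorem ncard_degreeLT (F : Type) [Field F] [Fintype F] (k : ℕ) :
    {g : F[X] | g.degree < (k : ℕ)}.ncard = Fintype.card F ^ k := by
  rw [set_degreeLT]
  have h : Nat.card (degreeLT F k) = Nat.card (Fin k → F) :=
    Nat.card_congr (degreeLTEquiv F k).toEquiv
  rw [Nat.card_fun, Nat.card_fin] at h
  rw [← Nat.card_eq_fintype_card, ← h]
  rfl

theorem t_COUNT : Pool.Agent.Run7.h338.FF.S_COUNT := by
  intro F _ _ m n Q hm hmn hn hQ
  classical
  set A : Set F[X] := {g : F[X] | g.degree < ((n - m : ℕ) : ℕ)} with hA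
  have hAf : A.Finite := finite_degreeLT F (n - m)
  have hAc : A.ncard = Fintype.card F ^ (n - m) := ncard_degreeLT F (n - m)
  have h0 : (0 : F[X]) ∈ A := by
    simp only [hA, Set.mem_ofPred_eq, degree_zero]
    exact WithBot.bot_lt_coe _
  have hGc : (A \ {0}).ncard = Fintype.card F ^ (n - m) - 1 := by
    rw [Set.ncard_sdiff_singleton_of_mem h0, hAc]
  have hinj : Set.InjOn (fun z : F[X] × F[X] => z.1 * z.2) ((Q : Set F[X]) ×ˢ (A \ {0})) := by
    rintro ⟨P, g⟩ ⟨hP, hg, hg0⟩ ⟨P', g'⟩ ⟨hP', hg', hg0'⟩ he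
    simp only [Finset.mem_coe, Set.mem_singleton_iff] at hP hP' hg0 hg0' he
    obtain ⟨hP1, hP2, hP3⟩ := hQ P hP
    obtain ⟨hP1', hP2', hP3'⟩ := hQ P' hP'
    by_cases hPP : P = P'
    · subst hPP
      have := mul_left_cancel₀ hP2.ne_zero he
      rw [this]
    · exfalso
      have hcop : IsCoprime P P' := by
        rw [hP2.coprime_iff_not_dvd]
        intro hd
        apply hPP
        exact eq_of_monic_of_associated hP1 hP1' (hP2.associated_of_dvd hP2' hd)
      have hd : P ∣ P' * g' := ⟨g, he.symm⟩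
      have hd2 : P ∣ g' := hcop.dvd_of_dvd_mul_left hd
      have h1 : P.degree ≤ g'.degree := degree_le_of_dvd hd2 hg0'
      rw [degree_eq_natDegree hP2.ne_zero, hP3] at h1
      have h2 : g'.degree < ((n - m : ℕ) : WithBot ℕ) := hg'
      have h3 := lt_of_le_of_lt h1 h2
      rw [Nat.cast_lt] at h3
      omega
  have himg : (fun z : F[X] × F[X] => z.1 * z.2) '' ((Q : Set F[X]) ×ˢ (A \ {0})) ⊆
      {h : F[X] | h ≠ 0 ∧ h.degree < (n : ℕ) ∧ ∃ P ∈ Q, P ∣ h} := by
    rintro _ ⟨⟨P, g⟩, ⟨hP, hg, hg0⟩, rfl⟩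
    simp only [Finset.mem_coe, Set.mem_singleton_iff] at hP hg0
    obtain ⟨hP1, hP2, hP3⟩ := hQ P hP
    refine ⟨mul_ne_zero hP2.ne_zero hg0, ?_, P, hP, dvd_mul_right _ _⟩
    have h2 : g.degree < ((n - m : ℕ) : WithBot ℕ) := hg
    show (P * g).degree < _
    rw [degree_mul, degree_eq_natDegree hP2.ne_zero, hP3, degree_eq_natDegree hg0]
    rw [degree_eq_natDegree hg0, Nat.cast_lt] at h2
    rw [← Nat.cast_add, Nat.cast_lt]
    omega
  have hfin : {h : F[X] | h ≠ 0 ∧ h.degree < (n : ℕ) ∧ ∃ P ∈ Q, P ∣ h}.Finite :=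
    (finite_degreeLT F n).subset (fun h hh => hh.2.1)
  calc Q.card * (Fintype.card F ^ (n - m) - 1)
      = ((Q : Set F[X]) ×ˢ (A \ {0})).ncard := by
        rw [Set.ncard_prod, hGc, Set.ncard_coe_finset]
    _ = ((fun z : F[X] × F[X] => z.1 * z.2) '' ((Q : Set F[X]) ×ˢ (A \ {0}))).ncard :=
        (Set.InjOn.ncard_image hinj).symm
    _ ≤ _ := Set.ncard_le_ncard himg hfin

end Run7.h715.FF
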