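import Pool.Agent.Run7.h715.FF.Irred
import Pool.Agent.Run7.h715.FF.Count

set_option autoImplicit false

open Polynomial

namespace Run7.h715.FF

open Pool.Agent.Run7.h338.FF

theorem t_DIR : S_KAK → S_COVER → S_DIR := by
  intro hKAK hCOVER F _ _ m n Q a hm hmn hQ
  classical
  have hq1 : 1 < Fintype.card F := Fintype.one_lt_card
  have hq : (1 : ℝ) < Fintype.card F := by exact_mod_cast hq1
  have hlog : 0 ≤ Real.log (Fintype.card F) := Real.log_nonneg hq.le
  set H : Set F[X] := {h : F[X] | h ≠ 0 ∧ h.degree < (n : ℕ) ∧ ∃ P ∈ Q, P ∣ h} with hH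
  set S : Set F[X] := {f : F[X] | f.degree < (n : ℕ) ∧ ∃ P ∈ Q, P ∣ f - a P} with hS
  have hSf : S.Finite := (finite_degreeLT F n).subset (fun f hf => hf.1)
  have hHf : H.Finite := (finite_degreeLT F n).subset (fun f hf => hf.2.1)
  have hrhs : 0 ≤ 2 ^ n * (n * Real.log (Fintype.card F) + 1) * (S.ncard : ℝ) := by positivity
  rcases H.eq_empty_or_nonempty with hHe | hHne
  · rw [hHe, Set.ncard_empty]
    simpa using hrhs
  -- the field of degree n
  obtain ⟨E, _, _, _, hfin, hcardE⟩ := ext_exists F n (by omega)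
  have hmf : Module.Finite F E := Module.Finite.of_finite
  have hfr : Module.finrank F (Fin n → F) = Module.finrank F E := by
    rw [hfin, Module.finrank_fin_fun]
  obtain ⟨φ⟩ := FiniteDimensional.nonempty_linearEquiv_of_finrank_eq hfr
  set e := degreeLTEquiv F n with he
  let Φ : degreeLT F n ≃ₗ[F] E := e.trans φ
  -- the directions as units
  let g : F[X] → E := fun h => if hh : h ∈ degreeLT F n then Φ ⟨h, hh⟩ else 0
  have hg : ∀ h (hh : h ∈ degreeLT F n), g h = Φ ⟨h, hh⟩ := by
    intro h hh
    simp only [g, dif_pos hh]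
  have hgne : ∀ h ∈ H, g h ≠ 0 := by
    intro h hh
    have hh2 : h ∈ degreeLT F n := mem_degreeLT.mpr hh.2.1
    rw [hg h hh2]
    intro h0
    have h1 : (⟨h, hh2⟩ : degreeLT F n) = 0 := by
      simpa using h0
    have h2 := congrArg Subtype.val h1
    exact hh.1 (by simpa using h2)
  let f : F[X] → Eˣ := fun h => if hne : g h ≠ 0 then Units.mk0 (g h) hne else 1
  have hf : ∀ h ∈ H, ((f h : Eˣ) : E) = g h := by
    intro h hh
    simp only [f, dif_pos (hgne h hh), Units.val_mk0]
  let D : Finset Eˣ := Finset.univ.filter (fun u => ∃ h ∈ H, f h = u)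
  have hHD : H.ncard ≤ D.card := by
    rw [← Set.ncard_coe_finset]
    apply Set.ncard_le_ncard_of_injOn f
    · intro h hh
      simp only [D, Finset.coe_filter, Finset.mem_univ, true_and, Set.mem_ofPred_eq]
      exact ⟨h, hh, rfl⟩
    · intro h hh h' hh' hEq
      have h1 : g h = g h' := by
        rw [← hf h hh, ← hf h' hh', hEq]
      have hh2 : h ∈ degreeLT F n := mem_degreeLT.mpr hh.2.1
      have hh2' : h' ∈ degreeLT F n := mem_degreeLT.mpr hh'.2.1
      rw [hg h hh2, hg h' hh2'] at h1
      have h3 := Φ.injective h1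
      exact congrArg Subtype.val h3
  have hDne : D.Nonempty := by
    obtain ⟨h, hh⟩ := hHne
    refine ⟨f h, ?_⟩
    simp only [D, Finset.mem_filter, Finset.mem_univ, true_and]
    exact ⟨h, hh, rfl⟩
  obtain ⟨C, hC, hCc⟩ := hCOVER Eˣ D hDne
  -- the covered vectors
  let S' : Finset (Fin n → F) := Finset.univ.filter (fun v => ((e.symm v : degreeLT F n) : F[X]) ∈ S)
  have hS' : S'.card ≤ S.ncard := by
    rw [← Set.ncard_coe_finset]
    refine Set.ncard_le_ncard_of_injOn (fun v => ((e.symm v : degreeLT F n) : F[X])) ?_ ?_ hSf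
    · intro v hv
      simp only [S', Finset.coe_filter, Finset.mem_univ, true_and, Set.mem_ofPred_eq] at hv
      exact hv
    · intro v _ v' _ hEq
      have h1 : e.symm v = e.symm v' := Subtype.ext hEq
      exact e.symm.injective h1
  let K : Finset (Fin n → F) := (C ×ˢ S').image (fun z => φ.symm ((z.1 : E) * φ z.2))
  have hKc : K.card ≤ C.card * S.ncard := by
    calc K.card ≤ (C ×ˢ S').card := Finset.card_image_le
      _ = C.card * S'.card := Finset.card_product _ _
      _ ≤ C.card * S.ncard := Nat.mul_le_mul_left _ hS'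
  have hKK : ∀ b : Fin n → F, b ≠ 0 → ∃ a : Fin n → F, ∀ t : F, a + t • b ∈ K := by
    intro b hb
    have hφb : φ b ≠ 0 := by
      intro h0
      apply hb
      simpa using h0
    obtain ⟨c, hc, d, hd, hcd⟩ := hC (Units.mk0 (φ b) hφb)
    simp only [D, Finset.mem_filter, Finset.mem_univ, true_and] at hd
    obtain ⟨h, hh, rfl⟩ := hd
    have hcd2 : (c : E) * g h = φ b := by
      have := congrArg (Units.val) hcd
      rw [Units.val_mul, hf h hh, Units.val_mk0] at this
      exact this
    have hh2 : h ∈ degreeLT F n := mem_degreeLT.mpr hh.2.1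
    rw [hg h hh2] at hcd2
    obtain ⟨P, hPQ, hPh⟩ := hh.2.2
    obtain ⟨hP0, hPm⟩ := hQ P hPQ
    have hr : a P % P ∈ degreeLT F n := by
      rw [mem_degreeLT]
      calc (a P % P).degree < P.degree := degree_mod_lt _ hP0
        _ = (P.natDegree : WithBot ℕ) := degree_eq_natDegree hP0
        _ ≤ (n : WithBot ℕ) := by
          rw [Nat.cast_le]
          omega
    refine ⟨φ.symm ((c : E) * Φ ⟨a P % P, hr⟩), ?_⟩
    intro t
    have hs : e (⟨a P % P, hr⟩ + t • ⟨h, hh2⟩) ∈ S' := by
      simp only [S', Finset.mem_filter, Finset.mem_univ, true_and, LinearEquiv.symm_apply_apply]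
      refine ⟨mem_degreeLT.mp (Subtype.property _), P, hPQ, ?_⟩
      have h1 : (((⟨a P % P, hr⟩ + t • ⟨h, hh2⟩ : degreeLT F n)) : F[X]) - a P =
          t • h - P * (a P / P) := by
        have h2 := EuclideanDomain.mod_add_div (a P) P
        have h3 : (((⟨a P % P, hr⟩ + t • ⟨h, hh2⟩ : degreeLT F n)) : F[X]) = a P % P + t • h := rfl
        rw [h3]
        linear_combination h2
      rw [h1]
      refine dvd_sub ?_ (dvd_mul_right _ _)
      rw [smul_eq_C_mul]
      exact hPh.mul_left _
    have hK1 : φ.symm ((c : E) * φ (e (⟨a P % P, hr⟩ + t • ⟨h, hh2⟩))) ∈ K := by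
      simp only [K, Finset.mem_image, Finset.mem_product, Prod.exists]
      exact ⟨c, _, ⟨hc, hs⟩, rfl⟩
    convert hK1 using 1
    apply φ.injective
    rw [map_add, LinearEquiv.apply_symm_apply, LinearEquiv.apply_symm_apply, map_smul, ← hcd2,
      map_add, map_add, map_smul, map_smul, mul_add, mul_smul_comm]
    rfl
  have hmain := hKAK F n K (by omega) hKK
  have hqn : (0 : ℝ) < (Fintype.card F : ℝ) ^ n := by positivity
  have hEx : (Fintype.card Eˣ : ℝ) ≤ (Fintype.card F : ℝ) ^ n := by
    have h1 : Fintype.card Eˣ ≤ Fintype.card E :=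
      Fintype.card_le_of_injective _ Units.val_injective
    rw [hcardE] at h1
    exact_mod_cast h1
  have hEx1 : (1 : ℝ) ≤ Fintype.card Eˣ := by
    have : 0 < Fintype.card Eˣ := Fintype.card_pos
    exact_mod_cast this
  have hDx : (D.card : ℝ) ≤ Fintype.card Eˣ := by
    have : D.card ≤ Fintype.card Eˣ := Finset.card_le_univ D
    exact_mod_cast this
  have hD0 : (0 : ℝ) < D.card := by
    have := hDne.card_pos
    exact_mod_cast this
  have hlogE : Real.log (Fintype.card Eˣ) ≤ n * Real.log (Fintype.card F) := by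
    rw [← Real.log_pow]
    exact Real.log_le_log (by linarith) hEx
  have hC2 : (C.card : ℝ) * D.card ≤
      (n * Real.log (Fintype.card F) + 1) * (Fintype.card F : ℝ) ^ n := by
    calc (C.card : ℝ) * D.card
        ≤ (Real.log (Fintype.card Eˣ) * (Fintype.card Eˣ / D.card) + 1) * D.card :=
          mul_le_mul_of_nonneg_right hCc hD0.le
      _ = Real.log (Fintype.card Eˣ) * Fintype.card Eˣ + D.card := by
          field_simp
      _ ≤ (n * Real.log (Fintype.card F)) * (Fintype.card F : ℝ) ^ n +
            (Fintype.card F : ℝ) ^ n := by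
          have h1 : Real.log (Fintype.card Eˣ) * Fintype.card Eˣ ≤
              (n * Real.log (Fintype.card F)) * (Fintype.card F : ℝ) ^ n :=
            mul_le_mul hlogE hEx (by linarith) (by positivity)
          linarith
      _ = _ := by ring
  have hK2 : (K.card : ℝ) ≤ C.card * S.ncard := by exact_mod_cast hKc
  have hfinal : (D.card : ℝ) ≤
      2 ^ n * (n * Real.log (Fintype.card F) + 1) * (S.ncard : ℝ) := by
    have h1 : (Fintype.card F : ℝ) ^ n / 2 ^ n * D.card ≤
        (n * Real.log (Fintype.card F) + 1) * (Fintype.card F : ℝ) ^ n * S.ncard := by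
      calc (Fintype.card F : ℝ) ^ n / 2 ^ n * D.card
          ≤ (C.card * S.ncard) * D.card := by
            apply mul_le_mul_of_nonneg_right _ hD0.le
            rw [← div_pow]
            exact hmain.trans hK2
        _ = (C.card * D.card) * S.ncard := by ring
        _ ≤ _ := mul_le_mul_of_nonneg_right hC2 (by positivity)
    have h2 : (Fintype.card F : ℝ) ^ n / 2 ^ n * D.card =
        (Fintype.card F : ℝ) ^ n * (D.card / 2 ^ n) := by ring
    have h3 : (n * Real.log (Fintype.card F) + 1) * (Fintype.card F : ℝ) ^ n * S.ncard =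
        (Fintype.card F : ℝ) ^ n * ((n * Real.log (Fintype.card F) + 1) * S.ncard) := by ring
    rw [h2, h3] at h1
    have h4 := le_of_mul_le_mul_left h1 hqn
    rw [div_le_iff₀ (by positivity)] at h4
    linarith
  have hHD2 : (H.ncard : ℝ) ≤ D.card := by exact_mod_cast hHD
  linarith

end Run7.h715.FF
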